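import Pool.Agent.H242.LD.Stm2

set_option autoImplicit false

/-!
# LE-KID (project LE of helper242): children of a node
-/

namespace Pool.Agent.H405.LE

open Real Set Metric Filter Topology
open Pool.Agent.H242.LD Pool.Agent.H242.TM

theorem abs_cos_arc (ω : ℝ) (hω : 0 < ω) (k : ℤ) (x : ℝ) (h1 : lo ω k ≤ x) (h2 : x ≤ hi ω k) :
    sin (2 * π * ω) ≤ |cos (2 * π * x)| := by
  unfold lo at h1
  unfold hi at h2
  have hpi := Real.pi_pos
  obtain ⟨v, hv⟩ : ∃ v : ℝ, v = x - k / 2 := ⟨_, rfl⟩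
  have hv1 : |v| ≤ 1 / 4 - ω := by
    rw [abs_le]
    constructor <;> linarith
  have e1 : 2 * π * x = 2 * π * v + k * π := by
    rw [hv]
    ring
  have e2 : |cos (2 * π * x)| = |cos (2 * π * v)| := by
    rw [e1, Real.cos_add_int_mul_pi, abs_mul, abs_zpow, abs_neg, abs_one, one_zpow, one_mul]
  rw [e2, ← Real.cos_pi_div_two_sub, ← Real.cos_abs (2 * π * v)]
  refine le_trans ?_ (le_abs_self _)
  have e3 : |2 * π * v| = 2 * π * |v| := by
    rw [abs_mul, abs_of_pos (by positivity : (0 : ℝ) < 2 * π)]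
  rw [e3]
  have h5 : 2 * π * |v| ≤ 2 * π * (1 / 4 - ω) := mul_le_mul_of_nonneg_left hv1 (by positivity)
  have h6 : 0 < 2 * π * ω := by positivity
  refine Real.cos_le_cos_of_nonneg_of_le_pi (by positivity) ?_ ?_
  · linarith
  · linarith

theorem dphi_arc (a ω : ℝ) (hω : 0 < ω) (k : ℤ) (x : ℝ) (h1 : lo ω k ≤ x) (h2 : x ≤ hi ω k) :
    mm a ω ≤ |dphi a x| := by
  have hpi := Real.pi_pos
  have h3 := abs_cos_arc ω hω k x h1 h2
  unfold mm dphi
  have h4 : 2 * π * |a| * |cos (2 * π * x)| = |2 * π * a * cos (2 * π * x)| := by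
    rw [abs_mul, abs_mul, abs_of_pos (by positivity : (0 : ℝ) < 2 * π)]
  have h5 : 2 * π * |a| * sin (2 * π * ω) ≤ 2 * π * |a| * |cos (2 * π * x)| :=
    mul_le_mul_of_nonneg_left h3 (by positivity)
  have h6 : |2 * π * a * cos (2 * π * x)| ≤ |2 + 2 * π * a * cos (2 * π * x)| + 2 := by
    have h7 := abs_sub (2 + 2 * π * a * cos (2 * π * x)) 2
    have e : 2 + 2 * π * a * cos (2 * π * x) - 2 = 2 * π * a * cos (2 * π * x) := by ring
    rw [e, abs_of_pos (by norm_num : (0 : ℝ) < 2)] at h7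
    exact h7
  linarith

theorem exp_small : exp (1 / 20) ≤ 20 / 19 := by
  have h := Real.one_sub_le_exp_neg (1 / 20)
  rw [Real.exp_neg] at h
  have hp := Real.exp_pos (1 / 20)
  have h2 : 19 / 20 * exp (1 / 20) ≤ 1 := by
    have := mul_le_mul_of_nonneg_right h hp.le
    rw [inv_mul_cancel₀ hp.ne'] at this
    linarith
  linarith

/-- bounds for the derivative -/
theorem deriv_bounds (hDIST : S_DIST) (h : ℝ → ℝ) (s t L H : ℝ) (hst : s < t) (hLH1 : 3 / 8 ≤ H - L)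
    (hLH2 : H - L ≤ 1 / 2) (hd : ContDiff ℝ 2 h) (hne : ∀ τ ∈ Icc s t, deriv h τ ≠ 0)
    (hB : ∀ τ ∈ Icc s t, |deriv (deriv h) τ| ≤ 1 / 10 * (deriv h τ) ^ 2)
    (hC : Cross h s t L H) : ∀ τ ∈ Icc s t, 7 / 20 / (t - s) ≤ |deriv h τ| ∧
      |deriv h τ| ≤ 11 / 20 / (t - s) := by
  obtain ⟨-, hends, hin⟩ := hC
  have hl : 0 < t - s := by linarith
  have hdiff : Differentiable ℝ h := hd.differentiable (by norm_num)
  obtain ⟨τ₀, hτ₀, hslope⟩ := exists_deriv_eq_slope h hst hdiff.continuous.continuousOn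
    hdiff.differentiableOn
  have hτ₀' : τ₀ ∈ Icc s t := Ioo_subset_Icc_self hτ₀
  have habs : |h t - h s| = H - L := by
    rcases hends with ⟨h1, h2⟩ | ⟨h1, h2⟩
    · rw [h1, h2, abs_of_nonneg (by linarith)]
    · rw [h1, h2, abs_of_nonpos (by linarith)]
      ring
  have h0 : |deriv h τ₀| = (H - L) / (t - s) := by
    rw [hslope, abs_div, habs, abs_of_pos hl]
  have hlo : 3 / 8 / (t - s) ≤ |deriv h τ₀| := by
    rw [h0]
    exact div_le_div_of_nonneg_right hLH1 hl.le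
  have hhi : |deriv h τ₀| ≤ 1 / 2 / (t - s) := by
    rw [h0]
    exact div_le_div_of_nonneg_right hLH2 hl.le
  have hdist := hDIST h s t (1 / 10) (by norm_num) hd hne hB
  have hexp : ∀ τ ∈ Icc s t, ∀ σ ∈ Icc s t, exp (1 / 10 * |h τ - h σ|) ≤ 20 / 19 := by
    intro τ hτ σ hσ
    refine le_trans ?_ exp_small
    apply Real.exp_le_exp.2
    have h1 := hin τ hτ
    have h2 := hin σ hσ
    have h3 : |h τ - h σ| ≤ 1 / 2 := by
      rw [abs_le]
      constructor <;> linarith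
    linarith
  intro τ hτ
  have hinv : 0 < (t - s)⁻¹ := inv_pos.2 hl
  constructor
  · have h1 := hdist τ₀ hτ₀' τ hτ
    have h2 : exp (1 / 10 * |h τ₀ - h τ|) * |deriv h τ| ≤ 20 / 19 * |deriv h τ| :=
      mul_le_mul_of_nonneg_right (hexp τ₀ hτ₀' τ hτ) (abs_nonneg _)
    have h3 : 3 / 8 / (t - s) ≤ 20 / 19 * |deriv h τ| := hlo.trans (h1.trans h2)
    have h4 : 7 / 20 / (t - s) ≤ 19 / 20 * (3 / 8 / (t - s)) := by
      rw [div_eq_mul_inv, div_eq_mul_inv (3 / 8 : ℝ)]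
      nlinarith
    linarith
  · have h1 := hdist τ hτ τ₀ hτ₀'
    have h2 : exp (1 / 10 * |h τ - h τ₀|) * |deriv h τ₀| ≤ 20 / 19 * |deriv h τ₀| :=
      mul_le_mul_of_nonneg_right (hexp τ hτ τ₀ hτ₀') (abs_nonneg _)
    have h3 : 20 / 19 * (1 / 2 / (t - s)) ≤ 11 / 20 / (t - s) := by
      rw [div_eq_mul_inv (1 / 2 : ℝ), div_eq_mul_inv (11 / 20 : ℝ)]
      nlinarith
    linarith

/-- the sum of the powers -/
theorem sum_pow {N : ℕ} (w : Fin N → ℝ) (l M e p : ℝ) (hl : 0 < l) (hM : 1 < M) (he0 : 0 < e)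
    (he1 : e < 1) (hw0 : ∀ i, 0 < w i) (hw : ∀ i, w i ≤ 2 * l / M) (hp : p * l ≤ ∑ i, w i)
    (hE : 1 ≤ (M / 2) ^ (1 - e) * p) : l ^ e ≤ ∑ i, w i ^ e := by
  have hM0 : 0 < M := by linarith
  have hL : 0 < 2 * l / M := by positivity
  have h1 : ∀ i, w i * (2 * l / M) ^ (e - 1) ≤ w i ^ e := by
    intro i
    have h2 : (2 * l / M) ^ (e - 1) ≤ (w i) ^ (e - 1) :=
      Real.rpow_le_rpow_of_nonpos (hw0 i) (hw i) (by linarith)
    have h3 : w i ^ e = w i * w i ^ (e - 1) := by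
      rw [Real.rpow_sub (hw0 i), Real.rpow_one]
      field_simp [(hw0 i).ne']
    rw [h3]
    exact mul_le_mul_of_nonneg_left h2 (hw0 i).le
  have h4 : (∑ i, w i) * (2 * l / M) ^ (e - 1) ≤ ∑ i, w i ^ e := by
    rw [Finset.sum_mul]
    exact Finset.sum_le_sum fun i _ => h1 i
  have hpow : 0 < (2 * l / M) ^ (e - 1) := Real.rpow_pos_of_pos hL _
  have h5 : p * l * (2 * l / M) ^ (e - 1) ≤ (∑ i, w i) * (2 * l / M) ^ (e - 1) :=
    mul_le_mul_of_nonneg_right hp hpow.le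
  have h6 : (2 * l / M) ^ (e - 1) = l ^ (e - 1) * (M / 2) ^ (1 - e) := by
    have e1 : 2 * l / M = l * (M / 2)⁻¹ := by
      field_simp
    rw [e1, Real.mul_rpow hl.le (by positivity), Real.inv_rpow (by positivity),
      ← Real.rpow_neg (by positivity)]
    congr 2
    ring
  have h7 : l * l ^ (e - 1) = l ^ e := by
    rw [Real.rpow_sub hl, Real.rpow_one]
    field_simp [hl.ne']
  have h8 : p * l * (2 * l / M) ^ (e - 1) = l ^ e * ((M / 2) ^ (1 - e) * p) := by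
    rw [h6, ← h7]
    ring
  have h9 : l ^ e ≤ l ^ e * ((M / 2) ^ (1 - e) * p) :=
    le_mul_of_one_le_right (Real.rpow_nonneg hl.le _) hE
  linarith

/-- **LE-KID** -/
theorem le_KID (hDIFF : S_DIFF) (hDIST : S_DIST) (hLEN : S_LEN) : S_KID := by
  intro a ω e x y n s t hω0 hω1 hm hq he0 he1 hE hN
  obtain ⟨hst, ⟨k, hC⟩, hpast⟩ := hN
  obtain ⟨m, hmdef⟩ : ∃ m : ℝ, m = mm a ω := ⟨_, rfl⟩
  rw [← hmdef] at hm hq hE hpast
  have hl : 0 < t - s := by linarith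
  have hpi := Real.pi_pos
  have hR : 0 < 2 * π * |a| + 3 := by positivity
  -- the derivative of `phi` at the time `n`
  have hnow : ∀ τ ∈ Icc s t, m ≤ |dphi a (Xn a x y n τ)| := by
    intro τ hτ
    rw [hmdef]
    exact dphi_arc a ω hω0 k _ (hC.2.2 τ hτ).1 (hC.2.2 τ hτ).2
  have hpast' : ∀ τ ∈ Icc s t, ∀ j < n + 1, m ≤ |dphi a (Xn a x y j τ)| := by
    intro τ hτ j hj
    rcases Nat.lt_succ_iff_lt_or_eq.1 hj with h | h
    · exact hpast j h τ hτ
    · rw [h]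
      exact hnow τ hτ
  have hD := fun τ (hτ : τ ∈ Icc s t) =>
    hDIFF a x y m n τ (by linarith) hq (fun j hj => hpast j hj τ hτ)
  have hD' := fun τ (hτ : τ ∈ Icc s t) =>
    hDIFF a x y m (n + 1) τ (by linarith) hq (hpast' τ hτ)
  have hs : s ∈ Icc s t := left_mem_Icc.2 hst.le
  have hwid : hi ω k - lo ω k = 1 / 2 - 2 * ω := by
    unfold hi lo
    ring
  have hb := deriv_bounds hDIST (Xn a x y n) s t (lo ω k) (hi ω k) hst (by linarith) (by linarith)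
    (hD s hs).1 (fun τ hτ => (hD τ hτ).2.1) (fun τ hτ => (hD τ hτ).2.2.1) hC
  obtain ⟨G₁, hG₁⟩ : ∃ G₁ : ℝ, G₁ = (m - 1) * (7 / 20 / (t - s)) := ⟨_, rfl⟩
  obtain ⟨G₂, hG₂⟩ : ∃ G₂ : ℝ, G₂ = (2 * π * |a| + 3) * (11 / 20 / (t - s)) := ⟨_, rfl⟩
  have hm1 : 0 < m - 1 := by linarith
  have hG₁0 : 0 < G₁ := by rw [hG₁]; positivity
  have hG₂0 : 0 < G₂ := by rw [hG₂]; positivity
  have hg : ∀ τ ∈ Icc s t, G₁ ≤ |deriv (Xn a x y (n + 1)) τ| ∧
      |deriv (Xn a x y (n + 1)) τ| ≤ G₂ := by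
    intro τ hτ
    obtain ⟨-, -, -, h4, h5⟩ := hD τ hτ
    obtain ⟨h6, h7⟩ := hb τ hτ
    constructor
    · refine le_trans ?_ h5
      rw [hG₁]
      exact mul_le_mul (by linarith [hnow τ hτ]) h6 (by positivity) (by linarith [hnow τ hτ])
    · refine h4.trans ?_
      rw [hG₂]
      exact mul_le_mul_of_nonneg_left h7 hR.le
  obtain ⟨N, kk, u, v, k1, k2, k3⟩ := hLEN (Xn a x y (n + 1)) s t ω G₁ G₂ hst hω0 hω1 hG₁0
    (hD' s hs).1 hg (fun τ hτ => (hD' τ hτ).2.2.1)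
  have hlen : ∀ i, v i - u i ≤ 2 * (t - s) / (m - 1) := by
    intro i
    refine (k1 i).2.2.2.1.trans ?_
    have e1 : 1 / 2 / G₁ = 10 / 7 * (t - s) / (m - 1) := by
      rw [hG₁]
      field_simp
      ring
    rw [e1]
    apply div_le_div_of_nonneg_right _ hm1.le
    linarith
  refine ⟨N, u, v, fun i => ⟨(k1 i).1, (k1 i).2.2.1, ?_, ?_⟩, ?_, ?_⟩
  · refine (hlen i).trans ?_
    rw [div_le_div_iff₀ hm1 (by norm_num)]
    nlinarith
  · refine ⟨(k1 i).2.1, ⟨kk i, (k1 i).2.2.2.2⟩, fun j hj τ hτ => ?_⟩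
    rw [← hmdef]
    exact hpast' τ ⟨(k1 i).1.trans hτ.1, hτ.2.trans (k1 i).2.2.1⟩ j hj
  · intro i j hij z hz z' hz'
    refine le_trans ?_ (k2 i j hij z hz z' hz')
    have e2 : 2 * ω / G₂ = 20 / 11 * (2 * ω / (2 * π * |a| + 3) * (t - s)) := by
      rw [hG₂]
      field_simp
    rw [e2]
    have h8 : 0 ≤ 2 * ω / (2 * π * |a| + 3) * (t - s) := by positivity
    linarith
  · refine sum_pow (fun i => v i - u i) (t - s) (m - 1) e ((1 - 7 * ω) * (1 - 4 / (m - 1))) hl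
      (by linarith) he0 he1 (fun i => sub_pos.2 (k1 i).2.1) hlen ?_ hE
    refine le_trans ?_ k3
    have e3 : 6 / 5 / G₁ = 24 / 7 * ((t - s) / (m - 1)) := by
      rw [hG₁]
      field_simp
      ring
    have e4 : (1 - 7 * ω) * (1 - 4 / (m - 1)) * (t - s) =
        (1 - 7 * ω) * ((t - s) - 4 * ((t - s) / (m - 1))) := by
      field_simp
    rw [e3, e4]
    apply mul_le_mul_of_nonneg_left _ (by linarith)
    have h9 : 0 ≤ (t - s) / (m - 1) := by positivity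
    linarith

end Pool.Agent.H405.LE
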